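import Pool.Agent.Helper37.ArrowDefs
import Pool.Agent.Helper37.ArrowProof

namespace Pool.Agent.Results.MP_5efe44_co.ThreeColour

open Pool.Agent.Helper37.Arrow

/-- For all `k ≥ l ≥ 2` there is a finite graph `G` with `G ↛ (K_k, K_k, K_l)` and
`G → (K_{k+1}, K_{k-1}, K_l)`. -/
theorem result : ∀ k l : ℕ, 2 ≤ l → l ≤ k →
    ∃ (n : ℕ) (G : SimpleGraph (Fin n)),
      ¬ Arrows G ![k, k, l] ∧ Arrows G ![k + 1, k - 1, l] :=
  fun k l hl hlk => main k l hl hlk

end Pool.Agent.Results.MP_5efe44_co.ThreeColour
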